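import Pool.Agent.Helper38.EC.Goals

/-!
# MP_ecc237_nt, Part I, packet AX
-/

set_option autoImplicit false

open MeasureTheory Filter Topology Set

namespace Pool.Agent.Helper90.EC.I_AX

open EC237 EC237.PI

/-- The product. -/
noncomputable def ph (j : ℕ) (η : ℝ) : ℝ := Jr η ^ (6 - j) * Yr η ^ j

theorem cont_ph (hJ : ContinuousOn Jr (Ioi 0)) (hY : ContinuousOn Yr (Ioi 0)) (j : ℕ) :
    ContinuousOn (ph j) (Ioi 0) := (hJ.pow _).mul (hY.pow _)

theorem big {C : ℝ} (hC : 0 ≤ C)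
    (h : ∀ η : ℝ, 1 ≤ η → |Jr η| ≤ C / Real.sqrt η ∧ |Yr η| ≤ C / Real.sqrt η) {j : ℕ} (hj : j ≤ 6)
    {η : ℝ} (hη : 1 ≤ η) : |ph j η| ≤ C ^ 6 / η ^ 3 := by
  obtain ⟨h1, h2⟩ := h η hη
  have h0 : 0 < Real.sqrt η := Real.sqrt_pos.2 (by linarith)
  have h3 : 0 ≤ C / Real.sqrt η := by positivity
  unfold ph
  rw [abs_mul, abs_pow, abs_pow]
  calc |Jr η| ^ (6 - j) * |Yr η| ^ j
      ≤ (C / Real.sqrt η) ^ (6 - j) * (C / Real.sqrt η) ^ j :=
        mul_le_mul (pow_le_pow_left₀ (abs_nonneg _) h1 _) (pow_le_pow_left₀ (abs_nonneg _) h2 _)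
          (by positivity) (by positivity)
    _ = C ^ 6 / η ^ 3 := by
        rw [← pow_add, Nat.sub_add_cancel hj, div_pow]
        congr 1
        have : Real.sqrt η ^ 6 = (Real.sqrt η ^ 2) ^ 3 := by ring
        rw [this, Real.sq_sqrt (by linarith)]

theorem small {C : ℝ} (hC : 0 ≤ C) {j : ℕ} (hj : j ≤ 6) {η : ℝ} (hη0 : 0 < η) (hη : η ≤ 1)
    (h1 : |Jr η| ≤ C) (h2 : |Yr η| ≤ C * η ^ (-(1 / 24) : ℝ)) :
    |ph j η| ≤ C ^ 6 * η ^ (-(1 / 4) : ℝ) := by
  have h3 : (1:ℝ) ≤ η ^ (-(1 / 24) : ℝ) := Real.one_le_rpow_of_pos_of_le_one_of_nonpos hη0 hη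
    (by norm_num)
  have h4 : |Jr η| ≤ C * η ^ (-(1 / 24) : ℝ) := by nlinarith
  unfold ph
  rw [abs_mul, abs_pow, abs_pow]
  calc |Jr η| ^ (6 - j) * |Yr η| ^ j
      ≤ (C * η ^ (-(1 / 24) : ℝ)) ^ (6 - j) * (C * η ^ (-(1 / 24) : ℝ)) ^ j :=
        mul_le_mul (pow_le_pow_left₀ (abs_nonneg _) h4 _) (pow_le_pow_left₀ (abs_nonneg _) h2 _)
          (by positivity) (by positivity)
    _ = C ^ 6 * η ^ (-(1 / 4) : ℝ) := by
        rw [← pow_add, Nat.sub_add_cancel hj, mul_pow]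
        congr 1
        rw [← Real.rpow_natCast, ← Real.rpow_mul hη0.le]
        congr 1
        norm_num

theorem Ioc_union_Ioi' {a b : ℝ} (h : a ≤ b) : Ioc a b ∪ Ioi b = Ioi a := Ioc_union_Ioi_eq_Ioi h

/-- integrability near infinity. -/
theorem int_top {g : ℝ → ℝ} (hg : ContinuousOn g (Ioi 0)) {K : ℝ}
    (h : ∀ η : ℝ, 1 ≤ η → |g η| ≤ K / η ^ 2) : IntegrableOn g (Ioi 1) := by
  have h1 : IntegrableOn (fun η : ℝ => K * η ^ (-2 : ℝ)) (Ioi 1) :=
    (integrableOn_Ioi_rpow_of_lt (by norm_num) one_pos).const_mul K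
  refine Integrable.mono' h1 ?_ ?_
  · exact (hg.mono (Ioi_subset_Ioi zero_le_one)).aestronglyMeasurable measurableSet_Ioi
  · refine (ae_restrict_iff' measurableSet_Ioi).2 (Eventually.of_forall fun η hη => ?_)
    rw [mem_Ioi] at hη
    have h2 := h η hη.le
    rw [Real.norm_eq_abs]
    refine h2.trans (le_of_eq ?_)
    rw [Real.rpow_neg (by linarith), div_eq_mul_inv]
    norm_num

theorem int_zero {g : ℝ → ℝ} (hg : ContinuousOn g (Ioi 0)) {K a : ℝ} (ha : -1 < a)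
    (h : ∀ η : ℝ, 0 < η → η ≤ 1 → |g η| ≤ K * η ^ a) : IntegrableOn g (Ioc 0 1) := by
  have h1 : IntegrableOn (fun η : ℝ => K * η ^ a) (Ioc 0 1) := by
    have h2 := (intervalIntegral.intervalIntegrable_rpow' (a := 0) (b := 1) ha).const_mul K
    exact (intervalIntegrable_iff_integrableOn_Ioc_of_le zero_le_one).1 h2
  refine Integrable.mono' h1 ?_ ?_
  · exact (hg.mono fun x hx => hx.1).aestronglyMeasurable measurableSet_Ioc
  · refine (ae_restrict_iff' measurableSet_Ioc).2 (Eventually.of_forall fun η hη => ?_)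
    exact h η hη.1 hη.2

theorem cont_Ld : ContinuousOn Ld (Ioi 0) := by
  unfold Ld
  refine ContinuousOn.sub (ContinuousOn.neg (ContinuousOn.log ?_ ?_)) continuousOn_const
  · exact (continuous_id.div_const 2).continuousOn
  · intro x hx
    have : (0:ℝ) < x := hx
    positivity

theorem deriv_Ld (j : ℕ) {x : ℝ} (hx : 0 < x) :
    HasDerivAt (fun t => -(Ld t ^ (j + 1) / ((j:ℝ) + 1))) (Ld x ^ j / x) x := by
  have h1 : HasDerivAt Ld (-(1 / x)) x := by
    unfold Ld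
    have h2 : HasDerivAt (fun t : ℝ => t / 2) (1 / 2) x := (hasDerivAt_id x).div_const 2
    have h3 := (h2.log (by positivity)).neg.sub_const Real.eulerMascheroniConstant
    refine h3.congr_deriv ?_
    field_simp
  have h4 := ((h1.pow (j + 1)).div_const ((j:ℝ) + 1)).neg
  refine h4.congr_deriv ?_
  have : (j:ℝ) + 1 ≠ 0 := by positivity
  push_cast
  field_simp

theorem thm (hJY : G_JY) : G_AX := by
  obtain ⟨-, ⟨C, hbig, hsm⟩, hJ, hY⟩ := hJY
  have hC : 0 ≤ C := by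
    have := (hsm 1 one_pos le_rfl).1
    exact (abs_nonneg _).trans this
  have hI1 : ∀ j : ℕ, j ≤ 6 → IntegrableOn (fun η => ph j η * η) (Ioi 0) := by
    intro j hj
    have hc : ContinuousOn (fun η => ph j η * η) (Ioi 0) := (cont_ph hJ hY j).mul continuousOn_id
    rw [← Ioc_union_Ioi' (zero_le_one : (0:ℝ) ≤ 1)]
    refine IntegrableOn.union (int_zero hc (K := C ^ 6) (a := -(1 / 4)) (by norm_num) ?_)
      (int_top hc (K := C ^ 6) ?_)
    · intro η h0 h1
      obtain ⟨a1, a2, -⟩ := hsm η h0 h1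
      rw [abs_mul, abs_of_pos h0]
      have := small hC hj h0 h1 a1 a2
      have h3 : 0 ≤ C ^ 6 * η ^ (-(1 / 4) : ℝ) := by positivity
      nlinarith [abs_nonneg (ph j η)]
    · intro η h1
      rw [abs_mul, abs_of_pos (by linarith : 0 < η)]
      have := big hC hbig hj h1
      calc |ph j η| * η ≤ C ^ 6 / η ^ 3 * η := mul_le_mul_of_nonneg_right this (by linarith)
        _ = C ^ 6 / η ^ 2 := by
          have : η ≠ 0 := by linarith
          field_simp
  have hcd : ∀ j : ℕ, ContinuousOn (fun η => ph j η / η) (Ioi 0) := fun j =>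
    (cont_ph hJ hY j).div continuousOn_id fun x hx => ne_of_gt hx
  have hI2' : ∀ j : ℕ, j ≤ 6 → IntegrableOn (fun η => ph j η / η) (Ioi 1) := by
    intro j hj
    refine int_top (hcd j) (K := C ^ 6) ?_
    intro η h1
    rw [abs_div, abs_of_pos (by linarith : 0 < η)]
    have h2 := big hC hbig hj h1
    have h3 : |ph j η| / η ≤ C ^ 6 / η ^ 3 / η := div_le_div_of_nonneg_right h2 (by linarith)
    refine h3.trans ?_
    rw [div_div, ← pow_succ]
    exact div_le_div_of_nonneg_left (by positivity) (by positivity)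
      (pow_le_pow_right₀ h1 (by norm_num))
  have hI2 : ∀ j : ℕ, j ≤ 6 → ∀ δ : ℝ, 0 < δ → IntegrableOn (fun η => ph j η / η) (Ioi δ) := by
    intro j hj δ hδ
    have h1 : Ioi δ ⊆ Icc (min δ 1) 1 ∪ Ioi 1 := by
      intro x hx
      rcases le_or_gt x 1 with h | h
      · exact Or.inl ⟨(min_le_left _ _).trans (le_of_lt hx), h⟩
      · exact Or.inr h
    refine IntegrableOn.mono_set (IntegrableOn.union ?_ (hI2' j hj)) h1
    refine ContinuousOn.integrableOn_Icc ((hcd j).mono fun x hx => ?_)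
    exact lt_of_lt_of_le (lt_min hδ one_pos) hx.1
  refine ⟨?_, hI1, hI2⟩
  -- the constants
  set g : ℕ → ℝ → ℝ := fun j η => (ph j η - Ld η ^ j) / η with hg
  have hgc : ∀ j, ContinuousOn (g j) (Ioi 0) := fun j =>
    ((cont_ph hJ hY j).sub (cont_Ld.pow j)).div continuousOn_id fun x hx => ne_of_gt hx
  have hgi : ∀ j ≤ 6, IntegrableOn (g j) (Ioc 0 1) := by
    intro j hj
    refine int_zero (hgc j) (K := C) (a := -(1 / 2)) (by norm_num) ?_
    intro η h0 h1
    obtain ⟨-, -, a3⟩ := hsm η h0 h1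
    have h2 := a3 j hj
    rw [hg]
    show |(ph j η - Ld η ^ j) / η| ≤ _
    rw [abs_div, abs_of_pos h0, div_le_iff₀ h0, mul_assoc]
    have h3 : η ^ (-(1 / 2) : ℝ) * η = η ^ (1 / 2 : ℝ) := by
      nth_rewrite 2 [← Real.rpow_one η]
      rw [← Real.rpow_add h0]
      norm_num
    rw [h3]
    exact h2
  refine ⟨fun j => (∫ η in (0:ℝ)..1, g j η) + ((∫ η in Ioi (1:ℝ), ph j η / η) -
    Ld 1 ^ (j + 1) / ((j:ℝ) + 1)), fun j hj => ?_⟩
  have hcont : Tendsto (fun δ : ℝ => ∫ η in δ..1, g j η) (𝓝[>] 0) (𝓝 (∫ η in (0:ℝ)..1, g j η)) := by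
    have h1 : IntegrableOn (g j) (uIcc 0 1) := by
      rw [uIcc_of_le zero_le_one, integrableOn_Icc_iff_integrableOn_Ioc]
      exact hgi j hj
    have h2 := intervalIntegral.continuousOn_primitive_interval_left h1
    have h3 := h2 0 (by simp)
    refine h3.tendsto.mono_left ?_
    rw [uIcc_of_le zero_le_one]
    exact nhdsWithin_le_of_mem (Icc_mem_nhdsGT one_pos)
  have hlim := hcont.add_const ((∫ η in Ioi (1:ℝ), ph j η / η) - Ld 1 ^ (j + 1) / ((j:ℝ) + 1))
  refine hlim.congr' ?_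
  have hev : ∀ᶠ δ : ℝ in 𝓝[>] 0, δ ∈ Ioo (0:ℝ) 1 := Ioo_mem_nhdsGT one_pos
  filter_upwards [hev] with δ hδ
  obtain ⟨hδ0, hδ1⟩ := hδ
  -- integral over `(δ, ∞)`
  have e1 : ∫ η in Ioi δ, Jr η ^ (6 - j) * Yr η ^ j / η =
      (∫ η in δ..1, ph j η / η) + ∫ η in Ioi (1:ℝ), ph j η / η := by
    have h1 := setIntegral_union (f := fun η => ph j η / η) (μ := volume) (s := Ioc δ 1) (t := Ioi 1)
      (by
        rw [Set.disjoint_left]
        intro x hx hx'
        exact absurd hx.2 (not_le.2 hx')) measurableSet_Ioi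
      ((hI2 j hj δ hδ0).mono_set (fun x hx => hx.1)) (hI2' j hj)
    rw [Ioc_union_Ioi' hδ1.le, ← intervalIntegral.integral_of_le hδ1.le] at h1
    exact h1
  have hsub : ∀ x ∈ uIcc δ 1, 0 < x := by
    intro x hx
    rw [uIcc_of_le hδ1.le] at hx
    exact lt_of_lt_of_le hδ0 hx.1
  have hLi : IntervalIntegrable (fun η => Ld η ^ j / η) volume δ 1 := by
    refine ContinuousOn.intervalIntegrable ?_
    exact ((cont_Ld.pow j).div continuousOn_id fun x hx => ne_of_gt hx).mono hsub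
  have hgi' : IntervalIntegrable (g j) volume δ 1 := by
    refine ContinuousOn.intervalIntegrable ?_
    exact (hgc j).mono hsub
  have e2 : ∫ η in δ..1, ph j η / η = (∫ η in δ..1, g j η) + ∫ η in δ..1, Ld η ^ j / η := by
    rw [← intervalIntegral.integral_add hgi' hLi]
    refine intervalIntegral.integral_congr fun x hx => ?_
    show ph j x / x = (ph j x - Ld x ^ j) / x + Ld x ^ j / x
    ring
  have e3 : ∫ η in δ..1, Ld η ^ j / η =
      -(Ld 1 ^ (j + 1) / ((j:ℝ) + 1)) - -(Ld δ ^ (j + 1) / ((j:ℝ) + 1)) :=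
    intervalIntegral.integral_eq_sub_of_hasDerivAt (fun x hx => deriv_Ld j (hsub x hx)) hLi
  rw [e1, e2, e3]
  ring

end Pool.Agent.Helper90.EC.I_AX
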